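import Pool.Agent.V1112.LA.Char

/-! Ultraproducts of the lattices of submodules of free modules of rank three. -/

set_option autoImplicit false
set_option linter.unusedSectionVars false

namespace Pool.Agent.V1112.LA

open FirstOrder Filter

universe u

/-- The function symbols of the language of lattices: two binary ones. -/
inductive LatFn : ℕ → Type
  | inf : LatFn 2
  | sup : LatFn 2

/-- The language `{∧, ∨}` of lattices. -/
def LL : Language := ⟨LatFn, fun _ => Empty⟩

/-- the symbol of the meet -/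
def fInf : LL.Functions 2 := LatFn.inf

/-- the symbol of the join -/
def fSup : LL.Functions 2 := LatFn.sup

/-- The interpretation of the symbols `∧`, `∨` in a lattice. -/
def latFun (L : Type u) [Lattice L] : ∀ {n : ℕ}, LatFn n → (Fin n → L) → L
  | _, LatFn.inf => fun x => x 0 ⊓ x 1
  | _, LatFn.sup => fun x => x 0 ⊔ x 1

/-- Every lattice is a structure for the language of lattices. -/
instance latStructure (L : Type u) [Lattice L] : LL.Structure L where
  funMap := fun {_} f x => latFun L f x
  RelMap := fun {_} r _ => r.elim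

section ultra

variable {W : ℕ → Type u} [∀ n, CommRing (W n)] (U : Ultrafilter ℕ)

/-- the product ring -/
abbrev PW (W : ℕ → Type u) : Type u := ∀ n, W n

/-- the ideal of the sequences which vanish almost everywhere -/
def II (W : ℕ → Type u) [∀ n, CommRing (W n)] (U : Ultrafilter ℕ) :
    @Ideal (PW W) (inferInstance : CommRing (PW W)).toCommSemiring.toSemiring where
  carrier := {s | ∀ᶠ n in (U : Filter ℕ), s n = 0}
  add_mem' := by
    intro a b ha hb
    have ha' : ∀ᶠ n in (U : Filter ℕ), a n = 0 := ha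
    have hb' : ∀ᶠ n in (U : Filter ℕ), b n = 0 := hb
    show ∀ᶠ n in (U : Filter ℕ), (a + b) n = 0
    filter_upwards [ha', hb'] with n h1 h2
    rw [Pi.add_apply, h1, h2, add_zero]
  zero_mem' := Eventually.of_forall fun n => rfl
  smul_mem' := by
    intro c a ha
    have ha' : ∀ᶠ n in (U : Filter ℕ), a n = 0 := ha
    show ∀ᶠ n in (U : Filter ℕ), (c * a) n = 0
    filter_upwards [ha'] with n h1
    rw [Pi.mul_apply, h1, mul_zero]

lemma mem_II (s : PW W) : s ∈ II W U ↔ ∀ᶠ n in (U : Filter ℕ), s n = 0 := Iff.rfl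

/-- the ultraproduct of the rings -/
def RR (W : ℕ → Type u) [∀ n, CommRing (W n)] (U : Ultrafilter ℕ) : Type u :=
  (PW W) ⧸ (II W U)

noncomputable instance rrRing : CommRing (RR W U) :=
  inferInstanceAs (CommRing ((PW W) ⧸ (II W U)))

/-- the class of a sequence of scalars -/
def qmk (W : ℕ → Type u) [∀ n, CommRing (W n)] (U : Ultrafilter ℕ) : PW W →+* RR W U :=
  Ideal.Quotient.mk (II W U)

lemma qmk_surj : Function.Surjective (qmk W U) := Ideal.Quotient.mk_surjective

lemma qmk_eq (s t : PW W) : qmk W U s = qmk W U t ↔ ∀ᶠ n in (U : Filter ℕ), s n = t n := by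
  have h : qmk W U s = qmk W U t ↔ s - t ∈ II W U := Ideal.Quotient.eq
  rw [h, mem_II]
  refine eventually_congr (Eventually.of_forall fun n => ?_)
  rw [Pi.sub_apply, sub_eq_zero]

/-- the class of a sequence of vectors -/
noncomputable def cl (w : ∀ n, Fin 3 → W n) : Fin 3 → RR W U :=
  fun i => qmk W U (fun n => w n i)

lemma cl_surj (v : Fin 3 → RR W U) : ∃ w, cl U w = v := by
  choose f hf using fun i => qmk_surj U (v i)
  exact ⟨fun n i => f i n, funext fun i => hf i⟩

lemma cl_eq_iff (w w' : ∀ n, Fin 3 → W n) :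
    cl U w = cl U w' ↔ ∀ᶠ n in (U : Filter ℕ), w n = w' n := by
  have h1 : cl U w = cl U w' ↔ ∀ i, ∀ᶠ n in (U : Filter ℕ), w n i = w' n i := by
    rw [funext_iff]
    refine forall_congr' fun i => ?_
    exact qmk_eq U _ _
  rw [h1, ← eventually_all]
  exact eventually_congr (Eventually.of_forall fun n => funext_iff.symm)

lemma cl_add (w w' : ∀ n, Fin 3 → W n) : cl U (fun n => w n + w' n) = cl U w + cl U w' := by
  funext i
  exact map_add (qmk W U) (fun n => w n i) (fun n => w' n i)

lemma cl_smul (s : ∀ n, W n) (w : ∀ n, Fin 3 → W n) :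
    cl U (fun n => s n • w n) = qmk W U s • cl U w := by
  funext i
  exact map_mul (qmk W U) s (fun n => w n i)

/-- the submodule given by a sequence of submodules -/
def TT (A : ∀ n, Submodule (W n) (Fin 3 → W n)) : Submodule (RR W U) (Fin 3 → RR W U) where
  carrier := {v | ∃ w, cl U w = v ∧ ∀ᶠ n in (U : Filter ℕ), w n ∈ A n}
  add_mem' := by
    rintro _ _ ⟨w, rfl, hw⟩ ⟨w', rfl, hw'⟩
    refine ⟨fun n => w n + w' n, cl_add U w w', ?_⟩
    filter_upwards [hw, hw'] with n h1 h2
    exact Submodule.add_mem _ h1 h2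
  zero_mem' := ⟨fun _ => 0, funext fun i => map_zero (qmk W U),
    Eventually.of_forall fun n => Submodule.zero_mem _⟩
  smul_mem' := by
    rintro c _ ⟨w, rfl, hw⟩
    obtain ⟨s, rfl⟩ := qmk_surj U c
    refine ⟨fun n => s n • w n, cl_smul U s w, ?_⟩
    filter_upwards [hw] with n h1
    exact Submodule.smul_mem _ _ h1

lemma mem_TT (A : ∀ n, Submodule (W n) (Fin 3 → W n)) (w : ∀ n, Fin 3 → W n) :
    cl U w ∈ TT U A ↔ ∀ᶠ n in (U : Filter ℕ), w n ∈ A n := by
  constructor
  · rintro ⟨w', h1, h2⟩
    filter_upwards [(cl_eq_iff U w' w).1 h1, h2] with n h3 h4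
    rw [← h3]
    exact h4
  · intro h
    exact ⟨w, rfl, h⟩

lemma TT_congr (A B : ∀ n, Submodule (W n) (Fin 3 → W n))
    (h : ∀ᶠ n in (U : Filter ℕ), A n = B n) : TT U A = TT U B := by
  ext v
  obtain ⟨w, rfl⟩ := cl_surj U v
  rw [mem_TT, mem_TT]
  refine eventually_congr ?_
  filter_upwards [h] with n hn
  rw [hn]

lemma TT_le (A B : ∀ n, Submodule (W n) (Fin 3 → W n)) (h : TT U A ≤ TT U B) :
    ∀ᶠ n in (U : Filter ℕ), A n ≤ B n := by
  by_contra hcon
  rw [← Ultrafilter.eventually_not] at hcon
  have h1 : ∀ n, ∃ x : Fin 3 → W n, ¬ A n ≤ B n → (x ∈ A n ∧ x ∉ B n) := by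
    intro n
    by_cases hn : A n ≤ B n
    · exact ⟨0, fun h => absurd hn h⟩
    · obtain ⟨x, hx⟩ := Set.not_subset.1 hn
      exact ⟨x, fun _ => hx⟩
  choose w hw using h1
  have h2 : cl U w ∈ TT U A := by
    rw [mem_TT]
    filter_upwards [hcon] with n hn
    exact (hw n hn).1
  have h3 := (mem_TT U B w).1 (h h2)
  have h4 : ∀ᶠ n in (U : Filter ℕ), False := by
    filter_upwards [hcon, h3] with n hn hn2
    exact (hw n hn).2 hn2
  exact (h4.exists).elim fun _ h => h

lemma TT_inj (A B : ∀ n, Submodule (W n) (Fin 3 → W n)) (h : TT U A = TT U B) :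
    ∀ᶠ n in (U : Filter ℕ), A n = B n := by
  filter_upwards [TT_le U A B h.le, TT_le U B A h.ge] with n h1 h2
  exact le_antisymm h1 h2

lemma TT_inf (A B : ∀ n, Submodule (W n) (Fin 3 → W n)) :
    TT U (fun n => A n ⊓ B n) = TT U A ⊓ TT U B := by
  ext v
  obtain ⟨w, rfl⟩ := cl_surj U v
  rw [Submodule.mem_inf, mem_TT, mem_TT, mem_TT, ← eventually_and]
  exact eventually_congr (Eventually.of_forall fun n => Submodule.mem_inf)

lemma TT_sup (A B : ∀ n, Submodule (W n) (Fin 3 → W n)) :
    TT U (fun n => A n ⊔ B n) = TT U A ⊔ TT U B := by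
  apply le_antisymm
  · intro v hv
    obtain ⟨w, rfl⟩ := cl_surj U v
    rw [mem_TT] at hv
    have h1 : ∀ n, ∃ x y : Fin 3 → W n, w n ∈ A n ⊔ B n → (x ∈ A n ∧ y ∈ B n ∧ x + y = w n) := by
      intro n
      by_cases hn : w n ∈ A n ⊔ B n
      · obtain ⟨x, hx, y, hy, hxy⟩ := Submodule.mem_sup.1 hn
        exact ⟨x, y, fun _ => ⟨hx, hy, hxy⟩⟩
      · exact ⟨0, 0, fun h => absurd h hn⟩
    choose x y hxy using h1
    refine Submodule.mem_sup.2 ⟨cl U x, ?_, cl U y, ?_, ?_⟩
    · rw [mem_TT]
      filter_upwards [hv] with n hn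
      exact (hxy n hn).1
    · rw [mem_TT]
      filter_upwards [hv] with n hn
      exact (hxy n hn).2.1
    · rw [← cl_add, cl_eq_iff]
      filter_upwards [hv] with n hn
      exact (hxy n hn).2.2
  · apply sup_le
    · intro v hv
      obtain ⟨w, rfl⟩ := cl_surj U v
      rw [mem_TT] at hv ⊢
      filter_upwards [hv] with n hn
      exact (le_sup_left : A n ≤ A n ⊔ B n) hn
    · intro v hv
      obtain ⟨w, rfl⟩ := cl_surj U v
      rw [mem_TT] at hv ⊢
      filter_upwards [hv] with n hn
      exact (le_sup_right : B n ≤ A n ⊔ B n) hn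

/-- the ultraproduct of the submodule lattices -/
abbrev MM (W : ℕ → Type u) [∀ n, CommRing (W n)] (U : Ultrafilter ℕ) : Type u :=
  (U : Filter ℕ).Product (fun n => Submodule (W n) (Fin 3 → W n))

/-- the embedding of the ultraproduct in the submodules of the ultraproduct -/
def GG : MM W U → Submodule (RR W U) (Fin 3 → RR W U) :=
  Quotient.lift (s := (U : Filter ℕ).productSetoid (fun n => Submodule (W n) (Fin 3 → W n)))
    (TT U) (fun A B h => TT_congr U A B h)

/-- the class of a sequence of submodules -/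
def mkM (A : ∀ n, Submodule (W n) (Fin 3 → W n)) : MM W U :=
  Quotient.mk ((U : Filter ℕ).productSetoid (fun n => Submodule (W n) (Fin 3 → W n))) A

lemma mkM_surj (a : MM W U) : ∃ A, mkM U A = a := Quotient.exists_rep a

lemma GG_mk (A : ∀ n, Submodule (W n) (Fin 3 → W n)) : GG U (mkM U A) = TT U A := rfl

lemma GG_inj : Function.Injective (GG (W := W) U) := by
  intro a b h
  obtain ⟨A, rfl⟩ := mkM_surj U a
  obtain ⟨B, rfl⟩ := mkM_surj U b
  exact Quotient.sound (TT_inj U A B h)

/-- the meet of the ultraproduct -/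
noncomputable def mInf (a b : MM W U) : MM W U :=
  Language.Structure.funMap (L := LL) (M := MM W U) fInf ![a, b]

/-- the join of the ultraproduct -/
noncomputable def mSup (a b : MM W U) : MM W U :=
  Language.Structure.funMap (L := LL) (M := MM W U) fSup ![a, b]

lemma mInf_mk (A B : ∀ n, Submodule (W n) (Fin 3 → W n)) :
    mInf U (mkM U A) (mkM U B) = mkM U (fun n => A n ⊓ B n) := by
  have h1 : (Language.Structure.funMap (L := LL) (M := MM W U) fInf
      fun i => mkM U ((![A, B] : Fin 2 → _) i)) =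
        mkM U (fun n => (Language.Structure.funMap (L := LL)
          (M := Submodule (W n) (Fin 3 → W n)) fInf fun i => (![A, B] : Fin 2 → _) i n)) :=
    Language.Ultraproduct.funMap_cast (L := LL) (u := U)
      (M := fun n => Submodule (W n) (Fin 3 → W n)) fInf ![A, B]
  have h2 : (fun i => mkM U ((![A, B] : Fin 2 → _) i)) = ![mkM U A, mkM U B] := by
    funext i
    fin_cases i <;> rfl
  exact (congrArg (fun x => Language.Structure.funMap (L := LL) (M := MM W U) fInf x) h2.symm).trans h1

lemma GG_inf (a b : MM W U) : GG U (mInf U a b) = GG U a ⊓ GG U b := by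
  obtain ⟨A, rfl⟩ := mkM_surj U a
  obtain ⟨B, rfl⟩ := mkM_surj U b
  rw [mInf_mk]
  exact TT_inf U A B

lemma mSup_mk (A B : ∀ n, Submodule (W n) (Fin 3 → W n)) :
    mSup U (mkM U A) (mkM U B) = mkM U (fun n => A n ⊔ B n) := by
  have h1 : (Language.Structure.funMap (L := LL) (M := MM W U) fSup
      fun i => mkM U ((![A, B] : Fin 2 → _) i)) =
        mkM U (fun n => (Language.Structure.funMap (L := LL)
          (M := Submodule (W n) (Fin 3 → W n)) fSup fun i => (![A, B] : Fin 2 → _) i n)) :=
    Language.Ultraproduct.funMap_cast (L := LL) (u := U)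
      (M := fun n => Submodule (W n) (Fin 3 → W n)) fSup ![A, B]
  have h2 : (fun i => mkM U ((![A, B] : Fin 2 → _) i)) = ![mkM U A, mkM U B] := by
    funext i
    fin_cases i <;> rfl
  exact (congrArg (fun x => Language.Structure.funMap (L := LL) (M := MM W U) fSup x) h2.symm).trans h1

lemma GG_sup (a b : MM W U) : GG U (mSup U a b) = GG U a ⊔ GG U b := by
  obtain ⟨A, rfl⟩ := mkM_surj U a
  obtain ⟨B, rfl⟩ := mkM_surj U b
  rw [mSup_mk]
  exact TT_sup U A B

/-- the lattice structure of the ultraproduct -/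
@[instance_reducible]
noncomputable def mLat : Lattice (MM W U) :=
  letI : Max (MM W U) := ⟨mSup U⟩
  letI : Min (MM W U) := ⟨mInf U⟩
  letI : LE (MM W U) := ⟨fun a b => GG U a ≤ GG U b⟩
  letI : LT (MM W U) := ⟨fun a b => GG U a < GG U b⟩
  Function.Injective.lattice (GG U) (GG_inj U) Iff.rfl Iff.rfl (GG_sup U) (GG_inf U)

lemma str_eq : @latStructure (MM W U) (mLat U) = Language.Ultraproduct.structure := by
  apply Language.Structure.ext
  · funext n f x
    cases f with
    | inf =>
      have h : x = ![x 0, x 1] := by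
        funext i
        fin_cases i <;> rfl
      conv_rhs => rw [h]
      rfl
    | sup =>
      have h : x = ![x 0, x 1] := by
        funext i
        fin_cases i <;> rfl
      conv_rhs => rw [h]
      rfl
  · funext n r
    exact r.elim

/-- Łoś's theorem for the lattice structure of the ultraproduct. -/
theorem los (φ : LL.Sentence) :
    @Language.Sentence.Realize LL (MM W U) (@latStructure (MM W U) (mLat U)) φ ↔
      ∀ᶠ n in (U : Filter ℕ), (Submodule (W n) (Fin 3 → W n)) ⊨ φ := by
  rw [str_eq]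
  exact Language.Ultraproduct.sentence_realize φ

end ultra

end Pool.Agent.V1112.LA
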