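import Mathlib

/-! The subspace lattices of free modules of rank three determine the characteristic. -/

set_option autoImplicit false
set_option linter.unusedSectionVars false

namespace Pool.Agent.V1112.LA

section char

variable {S : Type*} [CommRing S] (c : S)

/-- the vector `x e_0 + y e_1 + z e_2`, scaled by `c` -/
def vv (x y z : S) : Fin 3 → S := ![c * x, c * y, c * z]

/-- the submodule spanned by it -/
def ll (x y z : S) : Submodule S (Fin 3 → S) := Submodule.span S {vv c x y z}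

lemma mem_ll (x y z : S) (w : Fin 3 → S) : w ∈ ll c x y z ↔ ∃ a : S, a • vv c x y z = w :=
  Submodule.mem_span_singleton

lemma mem_ll_sup (x y z x' y' z' : S) (w : Fin 3 → S) :
    w ∈ ll c x y z ⊔ ll c x' y' z' ↔ ∃ a b : S, a • vv c x y z + b • vv c x' y' z' = w := by
  rw [Submodule.mem_sup]
  constructor
  · rintro ⟨u, hu, v, hv, rfl⟩
    obtain ⟨a, rfl⟩ := (mem_ll c x y z u).1 hu
    obtain ⟨b, rfl⟩ := (mem_ll c x' y' z' v).1 hv
    exact ⟨a, b, rfl⟩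
  · rintro ⟨a, b, rfl⟩
    exact ⟨_, (mem_ll c x y z _).2 ⟨a, rfl⟩, _, (mem_ll c x' y' z' _).2 ⟨b, rfl⟩, rfl⟩

lemma vv_smul (a x y z : S) : a • vv c x y z = ![a * (c * x), a * (c * y), a * (c * z)] := by
  unfold vv
  ext i
  fin_cases i <;> simp

lemma vv_comb (a b x y z x' y' z' : S) : a • vv c x y z + b • vv c x' y' z' =
    ![a * (c * x) + b * (c * x'), a * (c * y) + b * (c * y'), a * (c * z) + b * (c * z')] := by
  rw [vv_smul, vv_smul]
  ext i
  fin_cases i <;> simp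

lemma vec_eq {x y z x' y' z' : S} (h : (![x, y, z] : Fin 3 → S) = ![x', y', z']) :
    x = x' ∧ y = y' ∧ z = z' := by
  refine ⟨congrFun h 0, congrFun h 1, congrFun h 2⟩

lemma f1 : ll c 1 0 0 ≤ ll c 0 1 0 ⊔ ll c 1 1 0 := by
  intro w hw
  obtain ⟨a, rfl⟩ := (mem_ll c 1 0 0 w).1 hw
  rw [mem_ll_sup]
  refine ⟨-a, a, ?_⟩
  rw [vv_comb, vv_smul]
  congr 1
  · ring
  · congr 1
    · ring
    · congr 1
      ring

lemma f2 : ll c 1 0 0 ≤ ll c 0 0 1 ⊔ ll c 1 0 1 := by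
  intro w hw
  obtain ⟨a, rfl⟩ := (mem_ll c 1 0 0 w).1 hw
  rw [mem_ll_sup]
  refine ⟨-a, a, ?_⟩
  rw [vv_comb, vv_smul]
  congr 1
  · ring
  · congr 1
    · ring
    · congr 1
      ring

lemma f3 : (ll c 0 1 0 ⊔ ll c 0 0 1) ⊓ (ll c 1 1 0 ⊔ ll c 1 0 1) ≤ ll c 0 1 (-1) := by
  intro w hw
  obtain ⟨hw1, hw2⟩ := hw
  obtain ⟨a, b, h1⟩ := (mem_ll_sup c _ _ _ _ _ _ w).1 hw1
  obtain ⟨a', b', h2⟩ := (mem_ll_sup c _ _ _ _ _ _ w).1 hw2
  rw [mem_ll]
  rw [vv_comb] at h1 h2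
  rw [← h2] at h1
  obtain ⟨e1, e2, e3⟩ := vec_eq h1
  refine ⟨a', ?_⟩
  rw [← h2, vv_smul]
  congr 1
  · linear_combination e1
  · congr 1
    · ring
    · congr 1
      linear_combination e1

lemma f4 (k : S) : (ll c 1 k 0 ⊔ ll c 0 0 1) ⊓ (ll c 1 0 1 ⊔ ll c 0 1 0) ≤ ll c 1 k 1 := by
  intro w hw
  obtain ⟨hw1, hw2⟩ := hw
  obtain ⟨a, b, h1⟩ := (mem_ll_sup c _ _ _ _ _ _ w).1 hw1
  obtain ⟨a', b', h2⟩ := (mem_ll_sup c _ _ _ _ _ _ w).1 hw2
  rw [mem_ll]
  rw [vv_comb] at h1 h2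
  rw [← h1] at h2
  obtain ⟨e1, e2, e3⟩ := vec_eq h2
  refine ⟨a, ?_⟩
  rw [← h1, vv_smul]
  congr 1
  · ring
  · congr 1
    · ring
    · congr 1
      linear_combination e3 - e1

lemma f5 (k : S) : (ll c 1 k 1 ⊔ ll c 0 1 (-1)) ⊓ (ll c 1 0 0 ⊔ ll c 0 1 0) ≤ ll c 1 (k + 1) 0 := by
  intro w hw
  obtain ⟨hw1, hw2⟩ := hw
  obtain ⟨a, b, h1⟩ := (mem_ll_sup c _ _ _ _ _ _ w).1 hw1
  obtain ⟨a', b', h2⟩ := (mem_ll_sup c _ _ _ _ _ _ w).1 hw2
  rw [mem_ll]
  rw [vv_comb] at h1 h2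
  rw [← h1] at h2
  obtain ⟨e1, e2, e3⟩ := vec_eq h2
  refine ⟨a, ?_⟩
  rw [← h1, vv_smul]
  congr 1
  · ring
  · congr 1
    · linear_combination -e3
    · congr 1
      linear_combination e3

lemma f6 : ll c 1 0 0 ⊓ ll c 0 1 0 ≤ ⊥ := by
  intro w hw
  obtain ⟨hw1, hw2⟩ := hw
  obtain ⟨a, h1⟩ := (mem_ll c _ _ _ w).1 hw1
  obtain ⟨b, h2⟩ := (mem_ll c _ _ _ w).1 hw2
  rw [vv_smul] at h1 h2
  rw [← h1] at h2
  obtain ⟨e1, e2, e3⟩ := vec_eq h2
  rw [Submodule.mem_bot, ← h1]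
  ext i
  fin_cases i
  · show a * (c * 1) = 0
    linear_combination -e1
  · show a * (c * 0) = 0
    ring
  · show a * (c * 0) = 0
    ring

lemma f7 : ll c 1 1 0 ⊓ ll c 1 0 0 ≤ ⊥ := by
  intro w hw
  obtain ⟨hw1, hw2⟩ := hw
  obtain ⟨a, h1⟩ := (mem_ll c _ _ _ w).1 hw1
  obtain ⟨b, h2⟩ := (mem_ll c _ _ _ w).1 hw2
  rw [vv_smul] at h1 h2
  rw [← h1] at h2
  obtain ⟨e1, e2, e3⟩ := vec_eq h2
  rw [Submodule.mem_bot, ← h1]
  ext i
  fin_cases i
  · show a * (c * 1) = 0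
    linear_combination -e2
  · show a * (c * 1) = 0
    linear_combination -e2
  · show a * (c * 0) = 0
    ring

lemma f8 (k : S) (hk : c * k = 0) : ll c 1 k 0 ≤ ll c 1 0 0 := by
  intro w hw
  obtain ⟨a, rfl⟩ := (mem_ll c _ _ _ w).1 hw
  rw [mem_ll]
  refine ⟨a, ?_⟩
  rw [vv_smul, vv_smul]
  congr 2
  rw [hk, mul_zero]

lemma f9 (hc : c ≠ 0) : ¬ ll c 1 0 0 ≤ ⊥ := by
  intro h
  have h1 : vv c 1 0 0 ∈ ll c 1 0 0 := (mem_ll c _ _ _ _).2 ⟨1, one_smul _ _⟩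
  have h2 := h h1
  rw [Submodule.mem_bot] at h2
  apply hc
  have h3 := congrFun h2 0
  have h4 : c * 1 = 0 := h3
  rwa [mul_one] at h4

theorem char_zero (hc : c ≠ 0) (p : ℕ) (hp : c * (p : S) = 0) {D V : Type*} [DivisionRing D]
    [AddCommGroup V] [Module D V] (F : LatticeHom (Submodule S (Fin 3 → S)) (Submodule D V))
    (hF : Function.Injective F) : (p : D) = 0 := by
  have mono : ∀ {A B : Submodule S (Fin 3 → S)}, A ≤ B → F A ≤ F B := fun h => OrderHomClass.mono F h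
  -- a vector of the image of the first line
  obtain ⟨x, hx, hx0⟩ : ∃ x, x ∈ F (ll c 1 0 0) ∧ x ∉ F ⊥ := by
    by_contra hcon
    push Not at hcon
    have h1 : F (ll c 1 0 0) = F ⊥ := le_antisymm hcon (mono bot_le)
    exact f9 c hc (hF h1).le
  obtain ⟨y, hy, hxy⟩ : ∃ y, y ∈ F (ll c 0 1 0) ∧ x + y ∈ F (ll c 1 1 0) := by
    have h1 := mono (f1 c) hx
    rw [map_sup] at h1
    obtain ⟨u, hu, v, hv, h2⟩ := Submodule.mem_sup.1 h1
    refine ⟨-u, Submodule.neg_mem _ hu, ?_⟩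
    rw [← h2]
    have : u + v + -u = v := by abel
    rwa [this]
  obtain ⟨z, hz, hxz⟩ : ∃ z, z ∈ F (ll c 0 0 1) ∧ x + z ∈ F (ll c 1 0 1) := by
    have h1 := mono (f2 c) hx
    rw [map_sup] at h1
    obtain ⟨u, hu, v, hv, h2⟩ := Submodule.mem_sup.1 h1
    refine ⟨-u, Submodule.neg_mem _ hu, ?_⟩
    rw [← h2]
    have : u + v + -u = v := by abel
    rwa [this]
  have hyz : y - z ∈ F (ll c 0 1 (-1)) := by
    apply mono (f3 c)
    rw [map_inf, map_sup, map_sup]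
    refine ⟨?_, ?_⟩
    · rw [sub_eq_add_neg]
      exact Submodule.add_mem_sup hy (Submodule.neg_mem _ hz)
    · have e : y - z = (x + y) + -(x + z) := by abel
      rw [e]
      exact Submodule.add_mem_sup hxy (Submodule.neg_mem _ hxz)
  have hk : ∀ k : ℕ, x + k • y ∈ F (ll c 1 (k : S) 0) := by
    intro k
    induction k with
    | zero =>
      rw [zero_smul, add_zero, Nat.cast_zero]
      exact hx
    | succ k ih =>
      have h1 : x + k • y + z ∈ F (ll c 1 (k : S) 1) := by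
        apply mono (f4 c (k : S))
        rw [map_inf, map_sup, map_sup]
        refine ⟨Submodule.add_mem_sup ih hz, ?_⟩
        have e : x + k • y + z = (x + z) + k • y := by abel
        rw [e]
        exact Submodule.add_mem_sup hxz (Submodule.smul_of_tower_mem _ k hy)
      have h2 : x + (k + 1) • y ∈ F (ll c 1 ((k : S) + 1) 0) := by
        apply mono (f5 c (k : S))
        rw [map_inf, map_sup, map_sup]
        refine ⟨?_, Submodule.add_mem_sup hx (Submodule.smul_of_tower_mem _ (k + 1) hy)⟩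
        have e : x + (k + 1) • y = (x + k • y + z) + (y - z) := by
          rw [succ_nsmul]
          abel
        rw [e]
        exact Submodule.add_mem_sup h1 hyz
      rw [Nat.cast_succ]
      exact h2
  have h1 : x + p • y ∈ F (ll c 1 0 0) := mono (f8 c (p : S) hp) (hk p)
  have h2 : p • y ∈ F (ll c 1 0 0) := by
    have := Submodule.sub_mem _ h1 hx
    rwa [add_sub_cancel_left] at this
  have h3 : p • y ∈ F ⊥ := by
    apply mono (f6 c)
    rw [map_inf]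
    exact ⟨h2, Submodule.smul_of_tower_mem _ p hy⟩
  by_contra hD
  have h4 : y ∈ F ⊥ := by
    have h5 := Submodule.smul_mem (F ⊥) ((p : D)⁻¹) h3
    rw [← Nat.cast_smul_eq_nsmul D, smul_smul, inv_mul_cancel₀ hD, one_smul] at h5
    exact h5
  apply hx0
  apply mono (f7 c)
  rw [map_inf]
  refine ⟨?_, hx⟩
  have h6 := Submodule.sub_mem _ hxy (mono bot_le h4 : y ∈ F (ll c 1 1 0))
  rwa [add_sub_cancel_right] at h6

end char

/-- The subspace lattice of `(ℤ/pq)^3` does not embed in the subspace lattice of a vector space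
over a division ring. -/
theorem not_embeds {S : Type*} [CommRing S] (p q : ℕ) (hp : p.Coprime q) (hpS : (p : S) ≠ 0)
    (hqS : (q : S) ≠ 0) (hpq : (p : S) * (q : S) = 0) {D V : Type*} [DivisionRing D]
    [AddCommGroup V] [Module D V] (F : LatticeHom (Submodule S (Fin 3 → S)) (Submodule D V))
    (hF : Function.Injective F) : False := by
  have h1 := char_zero (q : S) hqS p (by rw [mul_comm]; exact hpq) F hF
  have h2 := char_zero (p : S) hpS q hpq F hF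
  have h3 : ((Nat.gcd p q : ℕ) : ℤ) = p * Nat.gcdA p q + q * Nat.gcdB p q := Nat.gcd_eq_gcd_ab p q
  have h4 : Nat.gcd p q = 1 := hp
  rw [h4] at h3
  have h5 : (((1 : ℕ) : ℤ) : D) = ((p * Nat.gcdA p q + q * Nat.gcdB p q : ℤ) : D) := by rw [h3]
  push_cast at h5
  rw [h1, h2, zero_mul, zero_mul, add_zero] at h5
  exact one_ne_zero h5

end Pool.Agent.V1112.LA
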